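import Pool.Agent.Helper40.Ct.Goals

/-! Packet EV2: the sign of the facets that count. -/

set_option autoImplicit false

open Finset
open Pool.Agent.Helper40.Ct

namespace Pool.Agent.Helper26.Ct

/-! ### The list -/

theorem map_range_eq {β : Type} (n : ℕ) (g : ℕ → β) :
    (List.range n).map g = List.ofFn (fun k : Fin n => g k) := by
  refine List.ext_getElem (by simp) fun i h1 h2 => ?_
  simp

theorem blk_range {α β : Type} (r : ℕ) : ∀ (m : ℕ) (x : Fin m → α) (h : ℕ → β),
    blk r ((List.range (m * r + 1)).map h) (List.ofFn x) =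
      (List.ofFn fun s : Fin m => (List.range (r + 1)).map fun t => (x s, h (s * r + t))).flatten
  | 0, x, h => by simp [blk]
  | m + 1, x, h => by
    rw [List.ofFn_succ, blk]
    have e1 : ((List.range ((m + 1) * r + 1)).map h).take (r + 1) = (List.range (r + 1)).map h := by
      rw [← List.map_take, List.take_range]
      congr 2
      have : r + 1 ≤ (m + 1) * r + 1 := by nlinarith
      exact min_eq_left this
    have e2 : ((List.range ((m + 1) * r + 1)).map h).drop r =
        (List.range (m * r + 1)).map (fun i => h (r + i)) := by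
      rw [← List.map_drop, List.range_eq_range', List.drop_range', List.range'_eq_map_range,
        List.map_map]
      have : (m + 1) * r + 1 - r = m * r + 1 := by
        have : (m + 1) * r = m * r + r := by ring
        omega
      rw [this]
      refine List.map_congr_left fun i _ => ?_
      simp
    rw [e1, e2, blk_range r m (fun i => x i.succ) (fun i => h (r + i)), List.ofFn_succ,
      List.flatten_cons]
    congr 1
    · rw [List.map_map]
      refine List.map_congr_left fun i _ => ?_
      simp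
    · congr 1
      congr 1
      funext s
      refine List.map_congr_left fun t _ => ?_
      have : r + (s * r + t) = (s.succ : Fin (m + 1)) * r + t := by
        simp only [Fin.val_succ]
        ring
      rw [this]

/-- the elements in a row -/
def hh (d r : ℕ) (i : ℕ) : El d r :=
  match i with
  | 0 => none
  | i + 1 => if hi : i < (d + 1) * r then
      some (⟨i / r, Nat.div_lt_of_lt_mul (by rwa [mul_comm] at hi)⟩,
        ⟨i % r, Nat.mod_lt _ (Nat.pos_of_ne_zero (by rintro rfl; simp at hi))⟩) else none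

theorem hh_succ (d r : ℕ) (s : Fin (d + 1)) (a : Fin r) :
    hh d r (s * r + (a + 1)) = some (s, a) := by
  have hr : 0 < r := a.pos
  have h1 : (s : ℕ) * r + (a + 1) = (s * r + a) + 1 := by ring
  have h2 : (s : ℕ) * r + a < (d + 1) * r := by
    have := s.2
    have := a.2
    nlinarith
  rw [h1]
  show (if hi : (s : ℕ) * r + a < (d + 1) * r then _ else none) = _
  rw [dif_pos h2]
  have h3 : ((s : ℕ) * r + a) / r = s := by
    rw [Nat.add_comm, Nat.add_mul_div_right _ _ hr, Nat.div_eq_of_lt a.2, zero_add]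
  have h4 : ((s : ℕ) * r + a) % r = a := by
    rw [Nat.add_comm, Nat.add_mul_mod_self_right, Nat.mod_eq_of_lt a.2]
  congr 1
  refine Prod.ext (Fin.ext h3) (Fin.ext h4)

theorem elList_eq (d r : ℕ) : elList d r = (List.range ((d + 1) * r + 1)).map (hh d r) := by
  have e1 : colList d r = (List.ofFn fun k : Fin ((d + 1) * r) => hh d r (k + 1)) := by
    rw [List.ofFn_mul]
    unfold colList
    rw [List.flatMap_def, List.ofFn_eq_map]
    congr 1
    refine List.map_congr_left fun i _ => ?_
    rw [List.ofFn_eq_map]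
    refine List.map_congr_left fun a _ => ?_
    exact (hh_succ d r i a).symm
  unfold elList
  rw [e1, List.range_succ_eq_map, List.map_cons, List.map_map]
  congr 1
  rw [map_range_eq]
  rfl

theorem dgL_ofFn {N : ℕ} (b : Fin N → ℝ) (w : Fin N → (Fin N → ℝ)) : dgL b (List.ofFn w) = dg b w := by
  unfold dgL
  rw [dif_pos (List.length_ofFn)]
  congr 1
  funext s
  rw [List.get_ofFn]
  rfl

theorem list_eq {V : Type} {α : Type} (d r : ℕ) (x : Fin (d + 1) → α) (F : α × El d r → V) :
    (blk r (elList d r) (List.ofFn x)).map F =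
      List.ofFn (fun p : Fin ((d + 1) * (r + 1)) =>
        F (x (finProdFinEquiv.symm p).1, hh d r ((finProdFinEquiv.symm p).1 * r +
          ((finProdFinEquiv.symm p).2 : Fin (r + 1))))) := by
  rw [elList_eq, blk_range r (d + 1) x (hh d r), List.ofFn_mul, List.map_flatten]
  congr 1
  rw [List.map_ofFn]
  congr 1
  funext s
  show List.map F _ = _
  rw [List.map_map, map_range_eq]
  congr 1
  funext t
  have e : (finProdFinEquiv.symm (⟨(s : ℕ) * (r + 1) + t, by
      have := s.2
      have := t.2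
      nlinarith⟩ : Fin ((d + 1) * (r + 1)))) = (s, t) := by
    rw [Equiv.symm_apply_eq]
    apply Fin.ext
    simp [finProdFinEquiv]
    ring
  show F (x s, hh d r (s * r + t)) = _
  simp only [e]

/-! ### Linear algebra -/

/-- the matrix of the vectors `(1, g s)` -/
def VV {d : ℕ} (g : Fin (d + 1) → (Fin d → ℝ)) : Matrix (Fin (d + 1)) (Fin (d + 1)) ℝ :=
  fun s k => (Fin.cons 1 (g s) : Fin (d + 1) → ℝ) k

/-- the matrix of a block diagonal form -/
def KK {d : ℕ} (r : ℕ) (g : Fin (d + 1) → (Fin d → ℝ)) :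
    Matrix (Fin ((d + 1) * (r + 1))) (Fin ((d + 1) * (r + 1))) ℝ :=
  fun p q => if (finProdFinEquiv.symm q).2 = (finProdFinEquiv.symm p).2 then
    VV g (finProdFinEquiv.symm p).1 (finProdFinEquiv.symm q).1 else 0

theorem VV_det {d : ℕ} (g : Fin (d + 1) → (Fin d → ℝ))
    (h : ∀ c : Fin (d + 1) → ℝ, ∑ s, c s = 0 → ∑ s, c s • g s = 0 → c = 0) : (VV g).det ≠ 0 := by
  intro h0
  obtain ⟨c, hc, he⟩ := Matrix.exists_vecMul_eq_zero_iff.2 h0
  apply hc
  apply h c
  · have := congrFun he 0
    simpa [Matrix.vecMul, dotProduct, VV] using this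
  · funext k
    have := congrFun he k.succ
    simpa [Matrix.vecMul, dotProduct, VV] using this

theorem KK_det {d : ℕ} (r : ℕ) (g : Fin (d + 1) → (Fin d → ℝ)) (h : (VV g).det ≠ 0) :
    (KK r g).det ≠ 0 := by
  have e : KK r g = (Matrix.kroneckerMap (fun a b => a * b) (VV g)
      (1 : Matrix (Fin (r + 1)) (Fin (r + 1)) ℝ)).submatrix finProdFinEquiv.symm
      finProdFinEquiv.symm := by
    ext p q
    simp only [KK, Matrix.submatrix_apply, Matrix.kroneckerMap_apply, Matrix.one_apply]
    by_cases h1 : (finProdFinEquiv.symm q).2 = (finProdFinEquiv.symm p).2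
    · rw [if_pos h1, if_pos h1.symm, mul_one]
    · rw [if_neg h1, if_neg (fun h2 => h1 h2.symm), mul_zero]
  rw [e, Matrix.det_submatrix_equiv_self, Matrix.det_kronecker, Matrix.det_one, one_pow, mul_one]
  exact pow_ne_zero _ h

/-- the vectors of a facet -/
def ww {d r : ℕ} (g : Fin (d + 1) → (Fin d → ℝ)) (J : Fin (d + 1) → Fin (r + 1) → Fin (r + 1)) :
    Fin ((d + 1) * (r + 1)) → (Fin ((d + 1) * (r + 1)) → ℝ) :=
  fun p q => if (finProdFinEquiv.symm q).2 = J (finProdFinEquiv.symm p).1 (finProdFinEquiv.symm p).2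
    then VV g (finProdFinEquiv.symm p).1 (finProdFinEquiv.symm q).1 else 0

theorem sum_N {d r : ℕ} (F : Fin ((d + 1) * (r + 1)) → ℝ) :
    ∑ p, F p = ∑ s : Fin (d + 1), ∑ t : Fin (r + 1), F (finProdFinEquiv (s, t)) := by
  rw [← finProdFinEquiv.sum_comp, Fintype.sum_prod_type]

theorem bvec_apply {d r : ℕ} (k : Fin (d + 1)) (j : Fin (r + 1)) :
    bvec d r (finProdFinEquiv (k, j)) = if k = 0 then 1 else 0 := by
  simp [bvec]

/-- the cone condition, coordinate by coordinate -/
theorem cone_iff {d r : ℕ} (g : Fin (d + 1) → (Fin d → ℝ))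
    (J : Fin (d + 1) → Fin (r + 1) → Fin (r + 1)) (c : Fin ((d + 1) * (r + 1)) → ℝ) :
    ∑ p, c p • ww g J p = bvec d r ↔ ∀ (k : Fin (d + 1)) (j : Fin (r + 1)),
      ∑ s, (∑ t, if j = J s t then c (finProdFinEquiv (s, t)) else 0) * VV g s k =
        if k = 0 then 1 else 0 := by
  have key : ∀ (k : Fin (d + 1)) (j : Fin (r + 1)),
      (∑ p, c p • ww g J p) (finProdFinEquiv (k, j)) =
      ∑ s, (∑ t, if j = J s t then c (finProdFinEquiv (s, t)) else 0) * VV g s k := by
    intro k j
    rw [Finset.sum_apply]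
    simp only [Pi.smul_apply, smul_eq_mul]
    rw [sum_N (fun p => c p * ww g J p (finProdFinEquiv (k, j)))]
    refine Finset.sum_congr rfl fun s _ => ?_
    rw [Finset.sum_mul]
    refine Finset.sum_congr rfl fun t _ => ?_
    simp only [ww, Equiv.symm_apply_apply]
    by_cases h : j = J s t
    · rw [if_pos h, if_pos h]
    · rw [if_neg h, if_neg h, mul_zero, zero_mul]
  constructor
  · intro h k j
    rw [← key, h, bvec_apply]
  · intro h
    funext q
    obtain ⟨⟨k, j⟩, rfl⟩ := finProdFinEquiv.surjective q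
    rw [key, h, bvec_apply]

theorem VV_zero {d : ℕ} (g : Fin (d + 1) → (Fin d → ℝ)) (s : Fin (d + 1)) : VV g s 0 = 1 := by
  simp [VV]

theorem VV_succ {d : ℕ} (g : Fin (d + 1) → (Fin d → ℝ)) (s : Fin (d + 1)) (k : Fin d) :
    VV g s k.succ = g s k := by
  simp [VV]

theorem dg_valid {d r : ℕ} (g : Fin (d + 1) → (Fin d → ℝ))
    (h1 : ∃ c : Fin (d + 1) → ℝ, (∀ s, 0 < c s) ∧ ∑ s, c s = 1 ∧ ∑ s, c s • g s = 0)
    (π : Fin (d + 1) → Equiv.Perm (Fin (r + 1))) :
    dg (bvec d r) (ww g (fun s t => π s t)) =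
      ((SignType.sign (KK r g).det : SignType) : ℤ) *
        ∏ i, ((Equiv.Perm.sign (π i) : ℤˣ) : ℤ) := by
  obtain ⟨c, hc, hc1, hc2⟩ := h1
  unfold dg
  rw [if_pos]
  · let σ : Equiv.Perm (Fin ((d + 1) * (r + 1))) :=
      finProdFinEquiv.permCongr (Equiv.prodCongrRight π)
    have e : (Matrix.of (ww g (fun s t => π s t))) = (KK r g).submatrix σ id := by
      ext p q
      obtain ⟨⟨s, t⟩, rfl⟩ := finProdFinEquiv.surjective p
      simp [ww, KK, σ, Equiv.permCongr_apply]
    have hs : Equiv.Perm.sign σ = ∏ i, Equiv.Perm.sign (π i) := by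
      rw [Equiv.Perm.sign_permCongr, Equiv.Perm.sign_prodCongrRight]
    rw [e, Matrix.det_permute, hs]
    have h3 : ((∏ i, Equiv.Perm.sign (π i) : ℤˣ) : ℤ) = ∏ i, ((Equiv.Perm.sign (π i) : ℤˣ) : ℤ) := by
      push_cast
      rfl
    rw [← h3]
    rcases Int.units_eq_one_or (∏ i, Equiv.Perm.sign (π i)) with h4 | h4
    · rw [h4]
      simp
    · rw [h4]
      simp [Left.sign_neg]
  · refine ⟨fun p => c (finProdFinEquiv.symm p).1, fun p => (hc _).le, ?_⟩
    rw [cone_iff]
    intro k j
    have e1 : ∀ s, (∑ t, if j = π s t then c (finProdFinEquiv.symm (finProdFinEquiv (s, t))).1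
        else 0) = c s := by
      intro s
      rw [Finset.sum_eq_single ((π s).symm j)]
      · simp
      · intro t _ ht
        rw [if_neg]
        rintro rfl
        simp at ht
      · intro h
        exact absurd (Finset.mem_univ _) h
    simp only [e1]
    refine Fin.cases ?_ (fun k => ?_) k
    · simp only [VV_zero, mul_one, if_true]
      exact hc1
    · simp only [VV_succ]
      rw [if_neg (Fin.succ_ne_zero k)]
      have := congrFun hc2 k
      simpa using this

theorem dg_invalid {d r : ℕ} (g : Fin (d + 1) → (Fin d → ℝ))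
    (h1 : ∃ c : Fin (d + 1) → ℝ, (∀ s, 0 < c s) ∧ ∑ s, c s = 1 ∧ ∑ s, c s • g s = 0)
    (h2 : ∀ c : Fin (d + 1) → ℝ, ∑ s, c s = 0 → ∑ s, c s • g s = 0 → c = 0)
    (J : Fin (d + 1) → Fin (r + 1) → Fin (r + 1)) (s₀ : Fin (d + 1)) (j : Fin (r + 1))
    (hj : ∀ t, J s₀ t ≠ j) : dg (bvec d r) (ww g J) = 0 := by
  obtain ⟨c, hc, hc1, hc2⟩ := h1
  unfold dg
  rw [if_neg]
  rintro ⟨b, hb, he⟩
  rw [cone_iff] at he
  have h3 : (fun s => (∑ t, if j = J s t then b (finProdFinEquiv (s, t)) else 0) - c s) = 0 := by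
    apply h2
    · rw [Finset.sum_sub_distrib, hc1]
      have := he 0 j
      simp only [VV_zero, mul_one, if_true] at this
      rw [this, sub_self]
    · funext k
      have h4 := he k.succ j
      rw [if_neg (Fin.succ_ne_zero k)] at h4
      simp only [VV_succ] at h4
      have h5 := congrFun hc2 k
      simp only [Finset.sum_apply, Pi.smul_apply, smul_eq_mul, Pi.zero_apply] at h5 ⊢
      simp only [sub_mul, Finset.sum_sub_distrib]
      rw [h4, h5, sub_self]
  have h6 := congrFun h3 s₀
  have h7 : (∑ t, if j = J s₀ t then b (finProdFinEquiv (s₀, t)) else 0) = 0 := by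
    refine Finset.sum_eq_zero fun t _ => ?_
    rw [if_neg]
    exact fun h => hj t h.symm
  simp only [h7, Pi.zero_apply, zero_sub, neg_eq_zero] at h6
  exact absurd h6 (hc s₀).ne'

/-- EV2 -/
theorem ev2 : EV2 := by
  intro d r α u g x hr hx hu h1 h2
  have hfp : ∀ π : Fac d r, fpi u π (blk r (elList d r) (List.ofFn x)) =
      dg (bvec d r) (ww (fun s => g (x s)) (fun s t => part π (hh d r (s * r + t)))) := by
    intro π
    unfold fpi
    rw [list_eq, dgL_ofFn]
    congr 1
    funext p q
    simp only [enc, ww, VV, hu]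
  have hsucc : ∀ (π : Fac d r) (s : Fin (d + 1)) (t : Fin r),
      part π (hh d r (s * r + (t.succ : Fin (r + 1)))) = π s t.succ := by
    intro π s t
    rw [Fin.val_succ, hh_succ]
    rfl
  have hzero : ∀ (π : Fac d r), part π (hh d r (((0 : Fin (d + 1)) : ℕ) * r + ((0 : Fin (r + 1)) : ℕ)))
      = 0 := by
    intro π
    simp [hh, part]
  have hlast : ∀ (π : Fac d r) (s : Fin d),
      part π (hh d r ((s.succ : Fin (d + 1)) * r + ((0 : Fin (r + 1)) : ℕ))) =
        π s.castSucc (Fin.last r) := by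
    intro π s
    obtain ⟨r', rfl⟩ : ∃ r', r = r' + 1 := ⟨r - 1, by omega⟩
    have := hh_succ d (r' + 1) s.castSucc (Fin.last r')
    have e : ((s.succ : Fin (d + 1)) : ℕ) * (r' + 1) + ((0 : Fin (r' + 1 + 1)) : ℕ) =
        (s.castSucc : Fin (d + 1)) * (r' + 1) + ((Fin.last r' : Fin (r' + 1)) + 1) := by
      simp only [Fin.val_succ, Fin.val_castSucc, Fin.val_last, Fin.val_zero]
      ring
    rw [e, this]
    rfl
  have hK := KK_det r (fun s => g (x s)) (VV_det _ h2)
  refine ⟨((SignType.sign (KK r (fun s => g (x s))).det : SignType) : ℤ), ?_, fun π => ⟨?_, ?_⟩⟩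
  · rcases lt_or_gt_of_ne hK with h | h
    · right
      rw [sign_neg h]
      rfl
    · left
      rw [sign_pos h]
      rfl
  · intro hv
    rw [hfp, sg, ← dg_valid _ h1]
    congr 2
    funext s t
    refine Fin.cases ?_ (fun t => hsucc π s t) t
    refine Fin.cases ?_ (fun s => ?_) s
    · rw [hzero, hv.1]
    · rw [hlast, hv.2 s]
  · intro hv
    rw [hfp]
    have key : ∃ s : Fin (d + 1), part π (hh d r (s * r + ((0 : Fin (r + 1)) : ℕ))) ≠ π s 0 := by
      by_contra hc
      push Not at hc
      apply hv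
      refine ⟨?_, fun s => ?_⟩
      · rw [← hc 0, hzero]
      · rw [← hc s.succ, hlast]
    obtain ⟨s, hs⟩ := key
    refine dg_invalid _ h1 h2 _ s (π s 0) ?_
    intro t
    refine Fin.cases hs (fun t => ?_) t
    rw [hsucc]
    intro h
    exact Fin.succ_ne_zero t ((π s).injective h)

end Pool.Agent.Helper26.Ct
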